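import Pool.Agent.BPH.Stmts
import Mathlib.Analysis.InnerProductSpace.ProdL2

open MeasureTheory Module Set Filter
open scoped RealInnerProductSpace Pointwise Topology ENNReal

namespace Pool.Agent.BPH

namespace AFIaux

section basic

variable {E : Type} [NormedAddCommGroup E] [InnerProductSpace ℝ E]

theorem gw_nn {i : ℕ} (v : Fin i → E) : 0 ≤ gw v := Real.sqrt_nonneg _

theorem cns_comp {A B : Type} (f : A → B) {i : ℕ} (a : A) (w : Fin i → A) :
    (fun l => f (cns a w l)) = cns (f a) (fun l => f (w l)) := by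
  funext l
  refine Fin.cases ?_ (fun k => ?_) l
  · rfl
  · rfl

theorem gw_swap (gwb : GWB) {i : ℕ} (a c : E) (w : Fin i → E) :
    gw (cns a (cns c w)) = gw (cns c (cns a w)) := by
  have h := gwb.perm (cns c (cns a w)) (Equiv.swap 0 1)
  rw [← h]
  congr 1
  funext l
  refine Fin.cases ?_ (fun k => ?_) l
  · rw [Equiv.swap_apply_left]
    rfl
  · refine Fin.cases ?_ (fun k => ?_) k
    · have : (Fin.succ 0 : Fin (i + 1 + 1)) = 1 := rfl
      rw [this, Equiv.swap_apply_right]
      rfl
    · rw [Equiv.swap_apply_of_ne_of_ne (Fin.succ_ne_zero _)]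
      · rfl
      · intro hh
        have : (1 : Fin (i + 1 + 1)) = Fin.succ 0 := rfl
        rw [this] at hh
        exact Fin.succ_ne_zero _ (Fin.succ_injective _ hh)

end basic

section sums

variable {E : Type} [NormedAddCommGroup E] [InnerProductSpace ℝ E] {ι : Type} [Fintype ι]

/-- the coefficients of the quadratic form -/
noncomputable def hh (m : ℕ) (b : ι → E) (x : ι → ℝ) (a c : ι) : ℝ :=
  ∑ v : Fin m → ι, gw (cns (b a) (cns (b c) (fun l => b (v l)))) * ∏ l, x (v l)

/-- the coefficients of the cubic form -/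
noncomputable def tt (m : ℕ) (b : ι → E) (x : ι → ℝ) (d a c : ι) : ℝ :=
  ∑ v : Fin m → ι, gw (cns (b d) (cns (b a) (cns (b c) (fun l => b (v l))))) * ∏ l, x (v l)

theorem zf2_eq (m : ℕ) (b : ι → E) (y z x : ι → ℝ) :
    zf2 m b y z x = ∑ a, ∑ c, hh m b x a c * y a * z c := by
  unfold zf2 hh
  refine Finset.sum_congr rfl fun a _ => Finset.sum_congr rfl fun c _ => ?_
  rw [Finset.sum_mul, Finset.sum_mul]
  refine Finset.sum_congr rfl fun v _ => by ring

theorem hh_succ (m : ℕ) (b : ι → E) (x : ι → ℝ) (d a : ι) :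
    hh (m + 1) b x d a = ∑ c, tt m b x d a c * x c := by
  unfold hh tt
  rw [← (Fin.consEquiv (fun _ => ι)).sum_comp, Fintype.sum_prod_type]
  refine Finset.sum_congr rfl fun c _ => ?_
  rw [Finset.sum_mul]
  refine Finset.sum_congr rfl fun v _ => ?_
  have h1 : (fun l => b ((Fin.consEquiv (fun _ : Fin (m + 1) => ι)) (c, v) l)) =
      cns (b c) (fun l => b (v l)) := cns_comp b c v
  have h2 : ∏ l, x ((Fin.consEquiv (fun _ : Fin (m + 1) => ι)) (c, v) l) =
      x c * ∏ l, x (v l) := by
    rw [Fin.prod_univ_succ]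
    rfl
  rw [h1, h2]
  ring

theorem hh_nonneg (m : ℕ) (b : ι → E) (x : ι → ℝ) (hx : ∀ a, 0 ≤ x a) (a c : ι) :
    0 ≤ hh m b x a c :=
  Finset.sum_nonneg fun v _ => mul_nonneg (gw_nn _) (Finset.prod_nonneg fun l _ => hx _)

theorem hh_symm (gwb : GWB) (m : ℕ) (b : ι → E) (x : ι → ℝ) (a c : ι) :
    hh m b x a c = hh m b x c a := by
  unfold hh
  refine Finset.sum_congr rfl fun v _ => ?_
  rw [gw_swap gwb]

theorem tt_swap1 (gwb : GWB) (m : ℕ) (b : ι → E) (x : ι → ℝ) (d a c : ι) :
    tt m b x d a c = tt m b x a d c := by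
  unfold tt
  refine Finset.sum_congr rfl fun v _ => ?_
  rw [gw_swap gwb]

theorem tt_proj (gwa : GWAStmt) [FiniteDimensional ℝ E] (m : ℕ) (b : ι → E) (x : ι → ℝ)
    (d a c : ι) :
    tt m b x d a c = ‖b d‖ * hh m (fun a => po (b d) (b a)) x a c := by
  unfold tt hh
  rw [Finset.mul_sum]
  refine Finset.sum_congr rfl fun v _ => ?_
  rw [(gwa (b d) (cns (b a) (cns (b c) (fun l => b (v l))))).1]
  have h1 : (fun l => po (b d) (cns (b a) (cns (b c) (fun l => b (v l))) l)) =
      cns (po (b d) (b a)) (cns (po (b d) (b c)) (fun l => po (b d) (b (v l)))) := by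
    rw [cns_comp (po (b d)), cns_comp (po (b d))]
  rw [h1]
  ring

theorem tt_swap2 (gwa : GWAStmt) (gwb : GWB) [FiniteDimensional ℝ E] (m : ℕ) (b : ι → E)
    (x : ι → ℝ) (d a c : ι) :
    tt m b x d a c = tt m b x d c a := by
  rw [tt_proj gwa, tt_proj gwa, hh_symm gwb]

end sums

section good

variable {E : Type} [NormedAddCommGroup E] [InnerProductSpace ℝ E] [FiniteDimensional ℝ E]
  {ι : Type} [Fintype ι]

theorem hh_pos (gwb : GWB) (m : ℕ) (b : ι → E) (hb : LinearIndependent ℝ b) (x : ι → ℝ)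
    (hx : ∀ a, 0 < x a) (hcard : m + 2 ≤ Fintype.card ι) (a c : ι) (hac : a ≠ c) :
    0 < hh m b x a c := by
  classical
  -- an injective tuple avoiding a, c
  have h1 : m ≤ Fintype.card {d : ι // d ≠ a ∧ d ≠ c} := by
    have h2 : Fintype.card {d : ι // d ≠ a ∧ d ≠ c} = Fintype.card ι - 2 := by
      rw [Fintype.card_subtype]
      have h3 : (Finset.univ.filter fun d : ι => d ≠ a ∧ d ≠ c) = Finset.univ \ {a, c} := by
        ext d
        simp
      rw [h3, Finset.card_sdiff_of_subset (Finset.subset_univ _), Finset.card_univ,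
        Finset.card_pair hac]
    omega
  obtain ⟨f⟩ : Nonempty (Fin m ↪ {d : ι // d ≠ a ∧ d ≠ c}) := by
    rw [Function.Embedding.nonempty_iff_card_le, Fintype.card_fin]
    exact h1
  unfold hh
  refine Finset.sum_pos' (fun v _ => mul_nonneg (gw_nn _) (Finset.prod_nonneg fun l _ => (hx _).le))
    ⟨fun l => (f l : ι), Finset.mem_univ _, ?_⟩
  refine mul_pos ?_ (Finset.prod_pos fun l _ => hx _)
  rw [gwb.pos_iff]
  -- the tuple as a composition
  have h4 : cns (b a) (cns (b c) (fun l => b (f l : ι))) =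
      b ∘ (cns a (cns c (fun l => (f l : ι)))) := by
    have := cns_comp b a (cns c (fun l => (f l : ι)))
    rw [cns_comp b c] at this
    rw [← this]
    rfl
  rw [h4]
  refine hb.comp _ ?_
  unfold cns
  rw [Fin.cons_injective_iff]
  refine ⟨?_, ?_⟩
  · rintro ⟨l, hl⟩
    revert hl
    refine Fin.cases ?_ (fun k => ?_) l
    · intro hl
      exact hac hl.symm
    · intro hl
      exact (f k).2.1 hl
  · rw [Fin.cons_injective_iff]
    refine ⟨?_, ?_⟩
    · rintro ⟨l, hl⟩
      exact (f l).2.2 hl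
    · intro l l' hll
      exact f.injective (Subtype.ext hll)

/-- the induction step for linearly independent families -/
theorem good (gwa : GWAStmt) (gwb : GWB) (afl : AFLStmt) (m : ℕ)
    (ih : ∀ (b : ι → E) (x y : ι → ℝ), (∀ a, 0 ≤ x a) →
      zf2 m b y y x * zf2 m b x x x ≤ zf2 m b y x x ^ 2)
    (b : ι → E) (hb : LinearIndependent ℝ b) (x y : ι → ℝ) (hx : ∀ a, 0 < x a)
    (hcard : m + 3 ≤ Fintype.card ι) :
    zf2 (m + 1) b y y x * zf2 (m + 1) b x x x ≤ zf2 (m + 1) b y x x ^ 2 := by
  classical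
  have hpos : ∀ a c, a ≠ c → 0 < hh (m + 1) b x a c :=
    fun a c hac => hh_pos gwb (m + 1) b hb x hx (by omega) a c hac
  have hnn : ∀ a c, 0 ≤ hh (m + 1) b x a c := hh_nonneg (m + 1) b x (fun a => (hx a).le)
  have hex : ∀ a c : ι, ∃ d, d ≠ a ∧ d ≠ c := by
    intro a c
    by_contra hcon
    push Not at hcon
    have h1 : (Finset.univ : Finset ι) ⊆ {a, c} := by
      intro d _
      by_cases hd : d = a
      · simp [hd]
      · simp [hcon d hd]
    have h2 := Finset.card_le_card h1
    rw [Finset.card_univ] at h2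
    have h3 := Finset.card_le_two (a := a) (b := c)
    omega
  have hs : ∀ a, 0 < ∑ c, hh (m + 1) b x a c * x c := by
    intro a
    obtain ⟨d, hd, -⟩ := hex a a
    refine Finset.sum_pos' (fun c _ => mul_nonneg (hnn a c) (hx c).le)
      ⟨d, Finset.mem_univ d, mul_pos (hpos a d hd.symm) (hx d)⟩
  -- the quadratic forms Q_d
  have hQ : ∀ (d : ι) (y z : ι → ℝ), ∑ a, ∑ c, tt m b x d a c * y a * z c =
      ‖b d‖ * zf2 m (fun a => po (b d) (b a)) y z x := by
    intro d y z
    rw [zf2_eq, Finset.mul_sum]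
    refine Finset.sum_congr rfl fun a _ => ?_
    rw [Finset.mul_sum]
    refine Finset.sum_congr rfl fun c _ => ?_
    rw [tt_proj gwa]
    ring
  have hQx : ∀ (d : ι) (y : ι → ℝ), ∑ a, ∑ c, tt m b x d a c * y a * x c =
      ∑ a, hh (m + 1) b x d a * y a := by
    intro d y
    refine Finset.sum_congr rfl fun a _ => ?_
    rw [hh_succ, Finset.sum_mul]
    refine Finset.sum_congr rfl fun c _ => by ring
  have hih : ∀ (d : ι) (y : ι → ℝ),
      (∑ a, ∑ c, tt m b x d a c * y a * y c) * (∑ a, hh (m + 1) b x d a * x a) ≤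
        (∑ a, hh (m + 1) b x d a * y a) ^ 2 := by
    intro d y
    rw [← hQx d y, ← hQx d x, hQ, hQ, hQ]
    have h1 := ih (fun a => po (b d) (b a)) x y (fun a => (hx a).le)
    calc ‖b d‖ * zf2 m (fun a => po (b d) (b a)) y y x *
          (‖b d‖ * zf2 m (fun a => po (b d) (b a)) x x x)
        = ‖b d‖ ^ 2 * (zf2 m (fun a => po (b d) (b a)) y y x *
          zf2 m (fun a => po (b d) (b a)) x x x) := by ring
      _ ≤ ‖b d‖ ^ 2 * (zf2 m (fun a => po (b d) (b a)) y x x) ^ 2 :=
          mul_le_mul_of_nonneg_left h1 (sq_nonneg _)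
      _ = _ := by ring
  have hmain := afl (hh (m + 1) b x) x (hh_symm gwb (m + 1) b x) hnn hx hs
    (fun a c => by
      obtain ⟨d, hda, hdc⟩ := hex a c
      exact ⟨d, hpos a d hda.symm, hpos d c hdc⟩)
    (fun y => by
      have h1 : ∑ a, ∑ c, hh (m + 1) b x a c * y a * y c =
          ∑ d, x d * ∑ a, ∑ c, tt m b x d a c * y a * y c := by
        have h2 : ∀ d, x d * ∑ a, ∑ c, tt m b x d a c * y a * y c =
            ∑ a, ∑ c, x d * (tt m b x d a c * y a * y c) := by
          intro d
          rw [Finset.mul_sum]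
          refine Finset.sum_congr rfl fun a _ => ?_
          rw [Finset.mul_sum]
        have h3 : ∑ d, ∑ a, ∑ c, x d * (tt m b x d a c * y a * y c) =
            ∑ a, ∑ c, ∑ d, x d * (tt m b x d a c * y a * y c) := by
          rw [Finset.sum_comm]
          refine Finset.sum_congr rfl fun a _ => ?_
          rw [Finset.sum_comm]
        simp_rw [h2]
        rw [h3]
        refine Finset.sum_congr rfl fun a _ => Finset.sum_congr rfl fun c _ => ?_
        rw [hh_succ, Finset.sum_mul, Finset.sum_mul]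
        refine Finset.sum_congr rfl fun d _ => ?_
        rw [tt_swap2 gwa gwb m b x a c d, tt_swap1 gwb m b x a d c]
        ring
      rw [h1]
      refine Finset.sum_le_sum fun d _ => ?_
      rw [mul_div_assoc]
      refine mul_le_mul_of_nonneg_left ?_ (hx d).le
      rw [le_div_iff₀ (hs d)]
      exact hih d y)
    y
  rw [zf2_eq, zf2_eq, zf2_eq]
  exact hmain

end good

section perturb

variable {E : Type} [NormedAddCommGroup E] [InnerProductSpace ℝ E] [FiniteDimensional ℝ E]
  {ι : Type} [Fintype ι] [DecidableEq ι]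

/-- the perturbed family, linearly independent for `ε ≠ 0` -/
noncomputable def be (b : ι → E) (ε : ℝ) (a : ι) : WithLp 2 (E × EuclideanSpace ℝ ι) :=
  WithLp.toLp 2 (b a, ε • EuclideanSpace.single a (1 : ℝ))

theorem be_li (b : ι → E) (ε : ℝ) (hε : ε ≠ 0) : LinearIndependent ℝ (be b ε) := by
  have h0 : LinearIndependent ℝ (fun a : ι => EuclideanSpace.single a (1 : ℝ)) := by
    have h := (EuclideanSpace.basisFun ι ℝ).orthonormal.linearIndependent
    have h' : (fun a : ι => EuclideanSpace.single a (1 : ℝ)) =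
        ⇑(EuclideanSpace.basisFun ι ℝ) := by
      funext a
      simp
    rw [h']
    exact h
  have h1 : LinearIndependent ℝ (fun a : ι => ε • EuclideanSpace.single a (1 : ℝ)) := by
    have := h0.units_smul (fun _ => Units.mk0 ε hε)
    exact this
  refine LinearIndependent.of_comp
    ((LinearMap.snd ℝ E (EuclideanSpace ℝ ι)).comp
      (WithLp.linearEquiv 2 ℝ (E × EuclideanSpace ℝ ι)).toLinearMap) ?_
  exact h1

theorem be_cont (b : ι → E) (a : ι) : Continuous (fun ε : ℝ => be b ε a) := by
  unfold be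
  refine (WithLp.prod_continuous_toLp 2 E (EuclideanSpace ℝ ι)).comp ?_
  exact continuous_const.prodMk (continuous_id.smul continuous_const)

theorem be_zero (b : ι → E) {i : ℕ} (w : Fin i → ι) :
    gw (fun l => be b 0 (w l)) = gw (fun l => b (w l)) := by
  unfold gw
  have : Matrix.gram ℝ (fun l => be b 0 (w l)) = Matrix.gram ℝ (fun l => b (w l)) := by
    ext p q
    simp [Matrix.gram_apply, be, WithLp.prod_inner_apply]
  rw [this]

theorem cns_eq_comp {A : Type} (b : ι → A) {i : ℕ} (a c : ι) (v : Fin i → ι) :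
    cns (b a) (cns (b c) (fun l => b (v l))) = fun l => b (cns a (cns c v) l) := by
  rw [cns_comp b a (cns c v), cns_comp b c v]

theorem zf2_cont (gwb : GWB) (m : ℕ) (b : ι → E) (y z x : ℝ → ι → ℝ) (hy : ∀ a, Continuous
    (fun ε => y ε a)) (hz : ∀ a, Continuous (fun ε => z ε a))
    (hx : ∀ a, Continuous (fun ε => x ε a)) :
    Continuous (fun ε : ℝ => zf2 m (be b ε) (y ε) (z ε) (x ε)) := by
  unfold zf2
  refine continuous_finset_sum _ fun a _ => continuous_finset_sum _ fun c _ =>
    continuous_finset_sum _ fun v _ => Continuous.mul ?_ ?_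
  · refine gwb.cont.comp ?_
    refine continuous_pi fun l => ?_
    have h1 : (fun ε : ℝ => cns (be b ε a) (cns (be b ε c) (fun l => be b ε (v l))) l) =
        fun ε : ℝ => be b ε (cns a (cns c v) l) := by
      funext ε
      rw [cns_eq_comp (be b ε) a c v]
    rw [h1]
    exact be_cont b _
  · exact ((hy a).mul (hz c)).mul (continuous_finset_prod _ fun l _ => hx _)

theorem zf2_zero (m : ℕ) (b : ι → E) (y z x : ι → ℝ) :
    zf2 m (be b 0) y z x = zf2 m b y z x := by
  unfold zf2
  refine Finset.sum_congr rfl fun a _ => Finset.sum_congr rfl fun c _ =>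
    Finset.sum_congr rfl fun v _ => ?_
  rw [cns_eq_comp (be b 0) a c v, cns_eq_comp b a c v, be_zero]

end perturb

theorem zf2_vanish (gwb : GWB) {E : Type} [NormedAddCommGroup E] [InnerProductSpace ℝ E]
    {ι : Type} [Fintype ι] (m : ℕ) (b : ι → E) (y z x : ι → ℝ)
    (hcard : Fintype.card ι < m + 2) : zf2 m b y z x = 0 := by
  classical
  unfold zf2
  refine Finset.sum_eq_zero fun a _ => Finset.sum_eq_zero fun c _ =>
    Finset.sum_eq_zero fun v _ => ?_
  have h1 : gw (cns (b a) (cns (b c) (fun l => b (v l)))) = 0 := by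
    refine le_antisymm (not_lt.1 ?_) (gw_nn _)
    rw [gwb.pos_iff]
    intro hli
    rw [cns_eq_comp b a c v] at hli
    have hinj := hli.injective
    have h2 : Function.Injective (cns a (cns c v)) := fun l l' hl => hinj (congrArg b hl)
    have h3 := Fintype.card_le_of_injective _ h2
    rw [Fintype.card_fin] at h3
    omega
  rw [h1, zero_mul]

end AFIaux

open AFIaux in
theorem afi (gwa : GWAStmt) (gwb : GWB) (afb : AFBStmt) (afl : AFLStmt) : AFIStmt := by
  intro E _ _ _ ι _ m
  induction m generalizing E with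
  | zero =>
    intro b x y hx
    exact afb b x y hx
  | succ m ih =>
    intro b x y hx
    classical
    by_cases hcard : m + 3 ≤ Fintype.card ι
    · have h1 : ∀ ε : ℝ, 0 < ε →
          zf2 (m + 1) (be b ε) y y (fun a => x a + ε) *
            zf2 (m + 1) (be b ε) (fun a => x a + ε) (fun a => x a + ε) (fun a => x a + ε) ≤
          zf2 (m + 1) (be b ε) y (fun a => x a + ε) (fun a => x a + ε) ^ 2 := by
        intro ε hε
        refine good gwa gwb afl m (fun b x y hx => ih b x y hx) (be b ε) (be_li b ε hε.ne')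
          (fun a => x a + ε) y (fun a => ?_) hcard
        have := hx a
        linarith
      have hxc : ∀ a, Continuous (fun ε : ℝ => x a + ε) := fun a => by fun_prop
      have hyc : ∀ a : ι, Continuous (fun _ : ℝ => y a) := fun a => continuous_const
      have c1 := zf2_cont gwb (m + 1) b (fun _ => y) (fun _ => y) (fun ε a => x a + ε) hyc hyc hxc
      have c2 := zf2_cont gwb (m + 1) b (fun ε a => x a + ε) (fun ε a => x a + ε)
        (fun ε a => x a + ε) hxc hxc hxc
      have c3 := zf2_cont gwb (m + 1) b (fun _ => y) (fun ε a => x a + ε)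
        (fun ε a => x a + ε) hyc hxc hxc
      have t1 := ((c1.mul c2).tendsto 0).mono_left (nhdsWithin_le_nhds (s := Set.Ioi (0 : ℝ)))
      have t2 := ((c3.pow 2).tendsto 0).mono_left (nhdsWithin_le_nhds (s := Set.Ioi (0 : ℝ)))
      have h2 := le_of_tendsto_of_tendsto t1 t2 (by
        filter_upwards [self_mem_nhdsWithin] with ε hε
        exact h1 ε hε)
      simpa [zf2_zero] using h2
    · rw [zf2_vanish gwb (m + 1) b y y x (by omega), zf2_vanish gwb (m + 1) b y x x (by omega)]
      simp

end Pool.Agent.BPH
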