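import Pool.Agent.BPH.Stmts

open MeasureTheory Module Set Filter
open scoped RealInnerProductSpace Pointwise Topology ENNReal

namespace Pool.Agent.BPH

/-- Perron-Frobenius argument: `g` is constant if it is an eigenfunction of the averaging operator
with eigenvalue at least `1` and has a positive value. -/
theorem afl_perron {ι : Type} [Fintype ι] [Nonempty ι] (H : ι → ι → ℝ) (x : ι → ℝ)
    (hnn : ∀ a c, 0 ≤ H a c) (hx : ∀ a, 0 < x a)
    (hs : ∀ a, 0 < ∑ c, H a c * x c) (hirr : ∀ a c, ∃ d, 0 < H a d ∧ 0 < H d c)
    (g : ι → ℝ) (lam : ℝ) (hlam : 1 ≤ lam)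
    (heq : ∀ a, lam * (∑ c, H a c * x c) * g a = ∑ c, H a c * x c * g c)
    (hpos : ∃ a, 0 < g a) : ∀ a, 0 < g a := by
  obtain ⟨a0, ha0⟩ := Finite.exists_max g
  obtain ⟨a1, ha1⟩ := hpos
  have hG : 0 < g a0 := lt_of_lt_of_le ha1 (ha0 a1)
  -- key: neighbours of a maximum point are maximum points
  have key : ∀ b, g b = g a0 → ∀ c, 0 < H b c → g c = g a0 := by
    intro b hb c hc
    have h1 : ∑ c, H b c * x c * (g a0 - g c) ≤ 0 := by
      have h2 : ∑ c, H b c * x c * (g a0 - g c) =
          (∑ c, H b c * x c) * g a0 - ∑ c, H b c * x c * g c := by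
        rw [Finset.sum_mul, ← Finset.sum_sub_distrib]
        refine Finset.sum_congr rfl fun c _ => by ring
      rw [h2, ← heq b, hb]
      have h3 : 0 < (∑ c, H b c * x c) * g a0 := mul_pos (hs b) hG
      nlinarith
    have h4 : ∀ d ∈ Finset.univ, 0 ≤ H b d * x d * (g a0 - g d) := fun d _ =>
      mul_nonneg (mul_nonneg (hnn b d) (hx d).le) (by linarith [ha0 d])
    have h5 := (Finset.sum_eq_zero_iff_of_nonneg h4).1 (le_antisymm h1 (Finset.sum_nonneg h4)) c
      (Finset.mem_univ c)
    have h6 : 0 < H b c * x c := mul_pos hc (hx c)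
    have h7 : g a0 - g c = 0 := by
      rcases mul_eq_zero.1 h5 with h | h
      · exact absurd h h6.ne'
      · exact h
    linarith
  intro c
  obtain ⟨d, hd1, hd2⟩ := hirr a0 c
  have h1 := key a0 rfl d hd1
  have h2 := key d h1 c hd2
  rw [h2]
  exact hG

theorem afl : AFLStmt := by
  intro ι _ H x hsym hnn hx hs hirr hyp y
  classical
  rcases isEmpty_or_nonempty ι with hemp | hne
  · simp
  set s : ι → ℝ := fun a => ∑ c, H a c * x c with hsdef
  have hs' : ∀ a, 0 < s a := hs
  set r : ι → ℝ := fun a => Real.sqrt (x a / s a) with hrdef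
  have hr : ∀ a, 0 < r a := fun a => Real.sqrt_pos.2 (div_pos (hx a) (hs' a))
  have hr2 : ∀ a, r a * r a * s a = x a := by
    intro a
    rw [hrdef]
    simp only
    rw [Real.mul_self_sqrt (div_pos (hx a) (hs' a)).le, div_mul_cancel₀ _ (hs' a).ne']
  set N : ℝ := ∑ a, ∑ c, H a c * x a * x c with hN
  have hNs : N = ∑ a, x a * s a := by
    rw [hN]
    refine Finset.sum_congr rfl fun a _ => ?_
    rw [hsdef]
    simp only
    rw [Finset.mul_sum]
    refine Finset.sum_congr rfl fun c _ => by ring
  have hNpos : 0 < N := by
    rw [hNs]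
    exact Finset.sum_pos (fun a _ => mul_pos (hx a) (hs' a)) Finset.univ_nonempty
  set u : ι → ℝ := fun a => r a * s a with hu
  set M : Matrix ι ι ℝ := fun a c => u a * u c / N - H a c * r a * r c with hM
  have hMh : M.IsHermitian := by
    ext a c
    simp only [Matrix.conjTranspose_apply, hM, star_trivial]
    rw [hsym c a]
    ring
  have hu_sum : ∀ a, ∑ c, H a c * r c * u c = s a := by
    intro a
    rw [hsdef]
    simp only
    refine Finset.sum_congr rfl fun c _ => ?_
    rw [hu]
    simp only
    rw [← hr2 c]
    ring
  have huu : ∑ c, u c * u c = N := by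
    rw [hNs]
    refine Finset.sum_congr rfl fun c _ => ?_
    rw [hu]
    simp only
    rw [← hr2 c]
    ring
  have hpsd : M.PosSemidef := by
    rw [hMh.posSemidef_iff_eigenvalues_nonneg]
    intro i
    by_contra hneg
    have hneg' : hMh.eigenvalues i < 0 := not_le.1 hneg
    set mu := hMh.eigenvalues i with hmu
    set v : ι → ℝ := ⇑(hMh.eigenvectorBasis i) with hv
    have hev : ∀ a, ∑ c, M a c * v c = mu * v a := by
      intro a
      have := congrFun (hMh.mulVec_eigenvectorBasis i) a
      simpa [Matrix.mulVec, dotProduct] using this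
    have hvne : ∃ a, v a ≠ 0 := by
      by_contra hcon
      push Not at hcon
      have h1 : hMh.eigenvectorBasis i = 0 := by
        ext a
        exact hcon a
      have h2 := (hMh.eigenvectorBasis.orthonormal.1 i)
      rw [h1, norm_zero] at h2
      exact zero_ne_one h2
    -- u is orthogonal to v
    have huv : ∑ a, u a * v a = 0 := by
      have h1 : ∑ a, u a * (∑ c, M a c * v c) = mu * ∑ a, u a * v a := by
        rw [Finset.mul_sum]
        refine Finset.sum_congr rfl fun a _ => ?_
        rw [hev a]
        ring
      have h2 : ∑ a, u a * (∑ c, M a c * v c) = ∑ c, (∑ a, u a * M a c) * v c := by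
        simp_rw [Finset.mul_sum, Finset.sum_mul]
        rw [Finset.sum_comm]
        refine Finset.sum_congr rfl fun a _ => Finset.sum_congr rfl fun c _ => by ring
      have h3 : ∀ c, ∑ a, u a * M a c = 0 := by
        intro c
        have h4 : ∑ a, u a * M a c = (∑ a, u a * u a) * u c / N - r c * ∑ a, H c a * r a * u a := by
          rw [Finset.sum_mul, Finset.sum_div, Finset.mul_sum, ← Finset.sum_sub_distrib]
          refine Finset.sum_congr rfl fun a _ => ?_
          rw [hM]
          simp only
          rw [hsym a c]
          ring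
        rw [h4, huu, hu_sum c, hu]
        simp only
        field_simp
        ring
      rw [h2] at h1
      simp_rw [h3] at h1
      simp only [zero_mul, Finset.sum_const_zero] at h1
      rcases mul_eq_zero.1 h1.symm with h | h
      · exact absurd h hneg'.ne
      · exact h
    -- the eigenvalue equation for S
    set lam := -mu with hlam
    have hlampos : 0 < lam := by rw [hlam]; linarith
    have hSv : ∀ a, r a * ∑ c, H a c * r c * v c = lam * v a := by
      intro a
      have h1 := hev a
      have h2 : ∑ c, M a c * v c = u a / N * (∑ c, u c * v c) - r a * ∑ c, H a c * r c * v c := by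
        rw [Finset.mul_sum, Finset.mul_sum, ← Finset.sum_sub_distrib]
        refine Finset.sum_congr rfl fun c _ => ?_
        rw [hM]
        simp only
        ring
      rw [h2, huv] at h1
      rw [hlam]
      linarith
    set g : ι → ℝ := fun a => r a * v a / x a with hg
    have hgx : ∀ a, g a * x a = r a * v a := fun a => by
      rw [hg]
      simp only
      rw [div_mul_cancel₀ _ (hx a).ne']
    have hHg : ∀ a, ∑ c, H a c * x c * g c = lam * s a * g a := by
      intro a
      have h1 : ∑ c, H a c * x c * g c = ∑ c, H a c * r c * v c := by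
        refine Finset.sum_congr rfl fun c _ => ?_
        have := hgx c
        calc H a c * x c * g c = H a c * (g c * x c) := by ring
          _ = H a c * (r c * v c) := by rw [this]
          _ = _ := by ring
      rw [h1]
      have h2 := hSv a
      have h3 : r a * (∑ c, H a c * r c * v c) = r a * (lam * s a * g a) := by
        rw [h2]
        have h4 := hgx a
        have h5 := hr2 a
        have h6 : x a * v a = x a * (r a * (s a * g a)) := by
          calc x a * v a = (r a * r a * s a) * v a := by rw [h5]
            _ = r a * s a * (r a * v a) := by ring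
            _ = r a * s a * (g a * x a) := by rw [h4]
            _ = _ := by ring
        have h7 : v a = r a * (s a * g a) := mul_left_cancel₀ (hx a).ne' h6
        rw [h7]
        ring
      exact mul_left_cancel₀ (hr a).ne' h3
    -- lam ≥ 1
    have hlam1 : 1 ≤ lam := by
      have h1 := hyp (fun a => g a * x a)
      have hHy : ∀ a, ∑ c, H a c * (g c * x c) = lam * s a * g a := by
        intro a
        rw [← hHg a]
        refine Finset.sum_congr rfl fun c _ => by ring
      have h2 : ∑ a, ∑ c, H a c * (g a * x a) * (g c * x c) =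
          lam * ∑ a, x a * s a * g a ^ 2 := by
        rw [Finset.mul_sum]
        refine Finset.sum_congr rfl fun a _ => ?_
        have h3 : ∑ c, H a c * (g a * x a) * (g c * x c) =
            (g a * x a) * ∑ c, H a c * (g c * x c) := by
          rw [Finset.mul_sum]
          refine Finset.sum_congr rfl fun c _ => by ring
        rw [h3, hHy a]
        ring
      have h4 : ∑ a, x a * (∑ c, H a c * (g c * x c)) ^ 2 / ∑ c, H a c * x c =
          lam ^ 2 * ∑ a, x a * s a * g a ^ 2 := by
        rw [Finset.mul_sum]
        refine Finset.sum_congr rfl fun a _ => ?_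
        rw [hHy a]
        change x a * (lam * s a * g a) ^ 2 / s a = _
        rw [div_eq_iff (hs' a).ne']
        ring
      rw [h2, h4] at h1
      have h5 : 0 < ∑ a, x a * s a * g a ^ 2 := by
        obtain ⟨a, ha⟩ := hvne
        refine Finset.sum_pos' (fun b _ => mul_nonneg (mul_pos (hx b) (hs' b)).le (sq_nonneg _))
          ⟨a, Finset.mem_univ a, mul_pos (mul_pos (hx a) (hs' a)) ?_⟩
        have : g a ≠ 0 := by
          rw [hg]
          simp only
          exact div_ne_zero (mul_ne_zero (hr a).ne' ha) (hx a).ne'
        positivity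
      by_contra hcon
      push Not at hcon
      have h6 : lam ^ 2 < lam := by nlinarith
      nlinarith
    -- orthogonality in terms of g
    have hgo : ∑ a, x a * s a * g a = 0 := by
      rw [← huv]
      refine Finset.sum_congr rfl fun a _ => ?_
      have := hgx a
      rw [hu]
      simp only
      calc x a * s a * g a = s a * (g a * x a) := by ring
        _ = s a * (r a * v a) := by rw [this]
        _ = _ := by ring
    have hgpos : ∃ a, 0 < g a := by
      by_contra hcon
      push Not at hcon
      have h1 : ∀ a ∈ Finset.univ, x a * s a * g a ≤ 0 := fun a _ =>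
        mul_nonpos_of_nonneg_of_nonpos (mul_pos (hx a) (hs' a)).le (hcon a)
      have h2 := (Finset.sum_eq_zero_iff_of_nonpos h1).1 hgo
      obtain ⟨a, ha⟩ := hvne
      have h3 := h2 a (Finset.mem_univ a)
      have h4 : g a = 0 := by
        rcases mul_eq_zero.1 h3 with h | h
        · exact absurd h (mul_pos (hx a) (hs' a)).ne'
        · exact h
      have h5 := hgx a
      rw [h4, zero_mul] at h5
      rcases mul_eq_zero.1 h5.symm with h | h
      · exact (hr a).ne' h
      · exact ha h
    have hall := afl_perron H x hnn hx hs hirr g lam hlam1 (fun a => (hHg a).symm) hgpos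
    have : 0 < ∑ a, x a * s a * g a :=
      Finset.sum_pos (fun a _ => mul_pos (mul_pos (hx a) (hs' a)) (hall a)) Finset.univ_nonempty
    linarith
  -- conclusion
  have hfin := (Matrix.posSemidef_iff_dotProduct_mulVec.1 hpsd).2 (fun a => y a / r a)
  have e1 : star (fun a => y a / r a) ⬝ᵥ (M.mulVec (fun a => y a / r a)) =
      (∑ a, s a * y a) ^ 2 / N - ∑ a, ∑ c, H a c * y a * y c := by
    simp only [dotProduct, Matrix.mulVec, Pi.star_apply, star_trivial]
    have e2 : ∀ a, ∑ c, M a c * (y c / r c) =
        u a / N * (∑ c, s c * y c) - r a * ∑ c, H a c * y c := by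
      intro a
      rw [Finset.mul_sum, Finset.mul_sum, ← Finset.sum_sub_distrib]
      refine Finset.sum_congr rfl fun c _ => ?_
      have h1 := (hr c).ne'
      rw [hM, hu]
      simp only
      field_simp
    simp_rw [e2]
    have e3 : ∀ a, y a / r a * (u a / N * (∑ c, s c * y c) - r a * ∑ c, H a c * y c) =
        (s a * y a) * ((∑ c, s c * y c) / N) - ∑ c, H a c * y a * y c := by
      intro a
      have h1 := (hr a).ne'
      have h2 : ∑ c, H a c * y a * y c = y a * ∑ c, H a c * y c := by
        rw [Finset.mul_sum]
        refine Finset.sum_congr rfl fun c _ => by ring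
      rw [h2, hu]
      simp only
      field_simp
    simp_rw [e3]
    rw [Finset.sum_sub_distrib, ← Finset.sum_mul]
    ring
  rw [e1] at hfin
  have e4 : ∑ a, ∑ c, H a c * y a * x c = ∑ a, s a * y a := by
    refine Finset.sum_congr rfl fun a _ => ?_
    rw [hsdef]
    simp only
    rw [Finset.sum_mul]
    refine Finset.sum_congr rfl fun c _ => by ring
  rw [e4]
  have e5 : ∑ a, ∑ c, H a c * y a * y c ≤ (∑ a, s a * y a) ^ 2 / N := by linarith
  rwa [le_div_iff₀ hNpos] at e5

end Pool.Agent.BPH
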